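import Pool.Agent.helper96.TC.H0
import Pool.Agent.helper88.TC.R
import Pool.Agent.helper87.TC.G

/-!
# The parity steps for realizations
-/

set_option autoImplicit false
set_option linter.all false
open CategoryTheory AlgebraicTopology Topology

noncomputable section
namespace Pool.Agent.helper73.TC

/-! ### [TC-P] the parity steps for realizations (uses [TC-R], [TC-G], [TC-H0]) -/
section P
variable (F : Type) [Field F] {V : Type} [Fintype V] [DecidableEq V]
  (C : Set (Finset V)) (v : V)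

theorem del_subset : del C v ⊆ C := fun _ h => h.1

theorem incl_eq_inc_comp : Real.incl (del_subset C v) = (inc (Ulow C v)).comp (delIncl C v) := by
  ext w
  rfl

theorem pathConnected_of_hequiv {X Y : Type} [TopologicalSpace X] [TopologicalSpace Y]
    (f : C(X, Y)) (g : C(Y, X)) (hfg : (f.comp g).Homotopic (.id Y))
    (h : PathConnectedSpace X) : PathConnectedSpace Y := by
  obtain ⟨H⟩ := hfg
  refine pathConnectedSpace_iff_univ.mpr ?_
  have key : ∀ y : Y, Joined (f (g y)) y := by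
    intro y
    refine ⟨⟨⟨fun t => H (t, y), by fun_prop⟩, ?_, ?_⟩⟩
    · simp
    · simp
  obtain ⟨x0⟩ := h.nonempty
  refine ⟨f x0, trivial, ?_⟩
  intro y _
  rw [joinedIn_univ]
  have h1 : Joined x0 (g y) := PathConnectedSpace.joined _ _
  have h2 : Joined (f x0) (f (g y)) := by
    obtain ⟨p⟩ := h1
    exact ⟨p.map f.continuous⟩
  exact h2.trans (key y)

theorem Par0_of_equiv {X Y : Type} [TopologicalSpace X] [TopologicalSpace Y]
    (f : C(X, Y)) (g : C(Y, X)) (hfg : (f.comp g).Homotopic (.id Y))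
    (h : Par0 F X) : Par0 F Y := fun n hn => HZ_of_equiv F f g hfg n (h n hn)

theorem Par1_of_equiv {X Y : Type} [TopologicalSpace X] [TopologicalSpace Y]
    (f : C(X, Y)) (g : C(Y, X)) (hfg : (f.comp g).Homotopic (.id Y))
    (h : Par1 F X) : Par1 F Y := by
  refine ⟨fun n hn hn2 => HZ_of_equiv F f g hfg n (h.1 n hn hn2), ?_⟩
  rcases h.2 with h2 | h2
  · left
    exact ⟨fun y => h2.elim (g y)⟩
  · right
    exact pathConnected_of_hequiv f g hfg h2

theorem par0_step (hC : DownClosed C) (hv : {v} ∈ C) (h1 : Par1 F (Real (lk C v)))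
    (h0 : Par0 F (Real (del C v))) :
    Par0 F (Real C) ∧ ∀ n, HI F (Real.incl (del_subset C v)) n := by
  haveI := Vup_contractible C v hC hv
  obtain ⟨r, hr1, hr2⟩ := exists_retr_del C v hC
  obtain ⟨f, g, hfg, hgf⟩ := exists_equiv_lk C v hC
  have hI : Par1 F ↥(Ulow C v ∩ Vup C v) := Par1_of_equiv F g f hgf h1
  have hU : Par0 F (Ulow C v) := Par0_of_equiv F (delIncl C v) r hr2 h0
  obtain ⟨hA, hB⟩ := rule0 F (Ulow C v) (Vup C v) (Ulow_open C v) (Vup_open C v)
    (Ulow_union_Vup C v) hI hU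
  refine ⟨hA, fun n => ?_⟩
  rw [incl_eq_inc_comp]
  exact HI_comp F _ _ n (hB n) (HI_of_equiv F (delIncl C v) r hr1 n)

theorem par1_step (hC : DownClosed C) (hv : {v} ∈ C) (h0 : Par0 F (Real (lk C v)))
    (hne : Nonempty (Real (lk C v))) (h1 : Par1 F (Real (del C v))) :
    Par1 F (Real C) := by
  haveI := Vup_contractible C v hC hv
  obtain ⟨r, hr1, hr2⟩ := exists_retr_del C v hC
  obtain ⟨f, g, hfg, hgf⟩ := exists_equiv_lk C v hC
  have hI : Par0 F ↥(Ulow C v ∩ Vup C v) := Par0_of_equiv F g f hgf h0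
  have hU : Par1 F (Ulow C v) := Par1_of_equiv F (delIncl C v) r hr2 h1
  haveI : Nonempty ↥(Ulow C v ∩ Vup C v) := hne.map g
  exact rule1 F (Ulow C v) (Vup C v) (Ulow_open C v) (Vup_open C v)
    (Ulow_union_Vup C v) hI hU

theorem par_cone (hC : DownClosed C) (hv : {v} ∈ C) (h : ∀ s ∈ C, insert v s ∈ C) :
    Par0 F (Real C) ∧ Par1 F (Real C) := by
  haveI := cone_contractible C v hC hv h
  refine ⟨fun n hn => HZ_of_contractible F n hn.pos, fun n hn hn2 =>
    HZ_of_contractible F n (by omega), Or.inr inferInstance⟩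

omit [DecidableEq V] in
theorem Real_isEmpty_of (h : ∀ s ∈ C, s = ∅) : IsEmpty (Real C) := by
  refine ⟨fun w => ?_⟩
  have hw := h _ w.2
  have hsum : ∑ x, (w.1 : V → ℝ) x = 1 := w.1.2.2
  have hz : ∀ x, (w.1 : V → ℝ) x = 0 := by
    intro x
    have hx : x ∉ (Finset.univ.filter fun v => 0 < (w.1 : V → ℝ) v) := by
      rw [hw]; simp
    have hx' : ¬ (0 < (w.1 : V → ℝ) x) := fun hpos => hx (by simp [hpos])
    exact le_antisymm (not_lt.mp hx') (w.1.2.1 x)
  simp [hz] at hsum

theorem HZ_of_isEmpty {X : Type} [TopologicalSpace X] [IsEmpty X] (n : ℕ) : HZ F X n := by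
  intro z _
  have : z = 0 := by
    ext σ
    exact (IsEmpty.false (σ (Classical.arbitrary _))).elim
  rw [this]
  exact Submodule.zero_mem _

omit [DecidableEq V] in
theorem par_empty (h : ∀ s ∈ C, s = ∅) : Par0 F (Real C) ∧ Par1 F (Real C) := by
  haveI := Real_isEmpty_of C h
  exact ⟨fun n _ => HZ_of_isEmpty F n, fun n _ _ => HZ_of_isEmpty F n, Or.inl inferInstance⟩
end P

end Pool.Agent.helper73.TC
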